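import Pool.Agent.H736R5.MM.All
import Pool.Agent.H736R5.MM.Fin2
import Pool.Agent.H736R5.GL.All
import Pool.Agent.H736R5.GL.Final

/-!
# `MP_0ea415_nt`: Littlewood's problem for the metallic means

Let `μ_t = (t + √(t^2 + 4)) / 2 = [t; t, t, …]`, `t ≥ 1`, and let `α = (a μ_t + b) / (c μ_t + d)`
with integers `a, b, c, d`, `a d - b c = ±1` (so the partial quotients of `α` are eventually `t`).
Then for every real `β` there are infinitely many positive integers `q` with
`q ‖q α‖ ‖q β‖ < 1/24`, and even `< 1/30` if `t = 1` (`α` equivalent to the golden ratio).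
-/

namespace Pool.Agent.Results.MP_0ea415_nt.MetallicMeans

open H736R5.MM

/-- the case `t = 1`, with the better constant. -/
theorem golden (a b c d : ℤ) (hdet : a * d - b * c = 1 ∨ a * d - b * c = -1) (α : ℝ)
    (hα : α = (a * ((((1 : ℕ) : ℝ) + √(((1 : ℕ) : ℝ) ^ 2 + 4)) / 2) + b) /
          (c * ((((1 : ℕ) : ℝ) + √(((1 : ℕ) : ℝ) ^ 2 + 4)) / 2) + d)) (β : ℝ) (N : ℕ) :
    ∃ q : ℕ, N ≤ q ∧ 0 < q ∧
        (q : ℝ) * |(q : ℝ) * α - (round ((q : ℝ) * α) : ℝ)|
          * |(q : ℝ) * β - (round ((q : ℝ) * β) : ℝ)| < 1 / 30 := by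
  have hg : (((1 : ℕ) : ℝ) + √(((1 : ℕ) : ℝ) ^ 2 + 4)) / 2 = Real.goldenRatio := by
    rw [Real.goldenRatio]
    norm_num
  rw [hg] at hα
  have hcd := ne_zero_of_det 1 le_rfl a b c d hdet
  have hmu : mu 1 = Real.goldenRatio := hg
  rw [hmu] at hcd
  obtain ⟨n, hn⟩ := pow_unbounded_of_one_lt ((2 : ℝ) ^ 21 * 1000 *
    ((1 + |(c : ℝ) * Real.goldenConj + d|) * (1 + |(c : ℝ) * Real.goldenRatio + d|⁻¹))
      * (3 * (N + 2))) Real.one_lt_goldenRatio
  rw [hα]
  exact H736R5.GL.step a b c d (a * d - b * c) hdet rfl _ _ rfl rfl (abs_pos.2 hcd) β N n hn.le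
    (H736R5.GL.good_all (H736R5.GL.all _ (Or.inl rfl)) (H736R5.GL.all _ (Or.inr rfl)) _ _)

theorem result :
    ∀ t : ℕ, 1 ≤ t → ∀ a b c d : ℤ, (a * d - b * c = 1 ∨ a * d - b * c = -1) →
      ∀ α : ℝ, α = (a * (((t : ℝ) + √((t : ℝ) ^ 2 + 4)) / 2) + b) /
          (c * (((t : ℝ) + √((t : ℝ) ^ 2 + 4)) / 2) + d) →
      ∀ β : ℝ, ∀ N : ℕ, ∃ q : ℕ, N ≤ q ∧ 0 < q ∧
        (q : ℝ) * |(q : ℝ) * α - (round ((q : ℝ) * α) : ℝ)|
          * |(q : ℝ) * β - (round ((q : ℝ) * β) : ℝ)| < if t = 1 then 1 / 30 else 1 / 24 := by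
  intro t ht a b c d hdet α hα β N
  by_cases h1 : t = 1
  · subst h1
    rw [if_pos rfl]
    exact golden a b c d hdet α hα β N
  rw [if_neg h1]
  have hα' : α = (a * mu t + b) / (c * mu t + d) := hα
  rw [hα']
  by_cases h12 : 12 ≤ t
  · exact of_cov t 5068 10000 ht (by norm_num) (by norm_num) (hc_large t h12) (good_large t)
      a b c d hdet β N
  · push Not at h12
    interval_cases t
    · exact of_cov 1 22360 240000 ht (by norm_num) (by norm_num)
        (hc_small 1 22360 (by norm_num)) cov1 a b c d hdet β N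
    · exact of_cov 2 28284 240000 ht (by norm_num) (by norm_num)
        (hc_small 2 28284 (by norm_num)) cov2 a b c d hdet β N
    · exact of_cov 3 36055 240000 ht (by norm_num) (by norm_num)
        (hc_small 3 36055 (by norm_num)) cov3 a b c d hdet β N
    · exact of_cov 4 44721 240000 ht (by norm_num) (by norm_num)
        (hc_small 4 44721 (by norm_num)) cov4 a b c d hdet β N
    · exact of_cov 5 53851 240000 ht (by norm_num) (by norm_num)
        (hc_small 5 53851 (by norm_num)) cov5 a b c d hdet β N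
    · exact of_cov 6 63245 240000 ht (by norm_num) (by norm_num)
        (hc_small 6 63245 (by norm_num)) cov6 a b c d hdet β N
    · exact of_cov 7 72800 240000 ht (by norm_num) (by norm_num)
        (hc_small 7 72800 (by norm_num)) cov7 a b c d hdet β N
    · exact of_cov 8 82461 240000 ht (by norm_num) (by norm_num)
        (hc_small 8 82461 (by norm_num)) cov8 a b c d hdet β N
    · exact of_cov 9 92195 240000 ht (by norm_num) (by norm_num)
        (hc_small 9 92195 (by norm_num)) cov9 a b c d hdet β N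
    · exact of_cov 10 101980 240000 ht (by norm_num) (by norm_num)
        (hc_small 10 101980 (by norm_num)) cov10 a b c d hdet β N
    · exact of_cov 11 111803 240000 ht (by norm_num) (by norm_num)
        (hc_small 11 111803 (by norm_num)) cov11 a b c d hdet β N

end Pool.Agent.Results.MP_0ea415_nt.MetallicMeans
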