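import Mathlib
import Pool.Agent.H238R3.UL.MainP

set_option autoImplicit false

/-! # MP_0ea415_nt: the exceptional set in Littlewood's conjecture and polynomial progressions

For `ε > 0` and a real number `α` let `V_ε(α)` be the set of all real `β` for which only finitely
many `q` satisfy `q ‖qα‖ ‖qβ‖ < ε`; a pair `(α, β)` violates the Littlewood conjecture if and only
if `β` lies in `V_ε(α)` for some `ε > 0`. We show that, uniformly in `α`, polynomial progressions of
bounded degree have few elements in `V_ε(α)`: for given `d, ε, δ` there is `N₀` such that for every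
`α`, every `N ≥ N₀` and every real polynomial `P` of degree between `1` and `d` whose leading
coefficient is not in `ℚ + ℚα`, at most `δN` of the numbers `P(0), …, P(N-1)` are in `V_ε(α)` (even
if arbitrary inhomogeneous shifts `γ` are allowed). In particular `V_ε(α)` contains no arithmetic
progression of length `N₀ = N₀(ε)` with a common difference outside `ℚ + ℚα`.

For `P(l) = (l + T) β` this is the theorem `Dilations` with `N₀` independent of `α` and `β`. -/

open Filter Polynomial

namespace Pool.Agent.Results.MP_0ea415_nt.PolynomialProgressionsUniform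

/-- `q ‖qα‖ ‖qβ - γ‖ < ε` for infinitely many `q` -/
def Good (ε α β γ : ℝ) : Prop :=
  ∃ᶠ q : ℕ in atTop, (q : ℝ) * |q * α - round (q * α)| * |(q * β - γ) - round (q * β - γ)| < ε

open Classical in
theorem result (d : ℕ) (ε δ : ℝ) (hε : 0 < ε) (hδ : 0 < δ) :
    ∃ N₀ : ℕ, ∀ (α : ℝ) (P : ℝ[X]), 1 ≤ P.natDegree → P.natDegree ≤ d →
      (∀ u v : ℚ, P.leadingCoeff ≠ u + v * α) → ∀ N ≥ N₀,
      (((Finset.range N).filter
        (fun l : ℕ => ¬ ∀ γ : ℝ, Good ε α (P.eval (l : ℝ)) γ)).card : ℝ) ≤ δ * N := by
  have hm := fun k : ℕ => Pool.Agent.H238R3.UL.mainP k ε δ hε hδ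
  choose Nf hNf using hm
  refine ⟨∑ k ∈ Finset.range d, Nf k, fun α P h1 h2 hres N hN => ?_⟩
  obtain ⟨k, hk⟩ : ∃ k, P.natDegree = k + 1 := ⟨P.natDegree - 1, by omega⟩
  have hle : Nf k ≤ N := (Finset.single_le_sum (fun _ _ => Nat.zero_le _)
    (Finset.mem_range.2 (by omega))).trans hN
  refine hNf k α P hk.le ?_ N hle _ (Finset.filter_subset _ _) ?_
  · rintro ⟨U, V, W, hU, h⟩
    have hUr : (U : ℝ) ≠ 0 := by exact_mod_cast hU
    apply hres ((W : ℚ) / U) ((V : ℚ) / U)
    rw [Polynomial.leadingCoeff, hk]
    push_cast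
    field_simp
    linarith
  · intro l hl
    exact (Finset.mem_filter.1 hl).2

end Pool.Agent.Results.MP_0ea415_nt.PolynomialProgressionsUniform
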