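import Mathlib
import Pool.Agent.H639R3.LP.Ind

set_option autoImplicit false

/-! # MP_0ea415_nt: the exceptional set in the Littlewood conjecture and polynomial progressions

For `ε > 0` and a real number `α` let `V_ε(α)` be the set of all real `β` for which (for some shift
`γ`) only finitely many `q` satisfy `q ‖qα‖ ‖qβ - γ‖ < ε`; if a pair `(α, β)` violates the Littlewood
conjecture, then `β` lies in `V_ε(α)` for some `ε > 0`. We show that for given `d, ε, δ` there are
`N₀` and `b` with the following property: for every `α` and every real polynomial `P` of degree at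
most `d` one of whose nonconstant coefficients is not in `(1/b) (ℤ + ℤ α)`, and for all `N ≥ N₀`, at
most `δ N` of the numbers `P(0), …, P(N-1)` are in `V_ε(α)`. In particular the common difference of
every arithmetic progression of length `N₀` in `V_ε(α)` is in `(1/b) (ℤ + ℤ α)`, and at most `δ M` of
the `M` numbers `β + c / M` are in `V_ε(α)`, for every `β` and all large `M`. -/

open Filter Polynomial

namespace Pool.Agent.Results.MP_0ea415_nt.ProgressionsModLattice

/-- `q ‖qα‖ ‖qβ - γ‖ < ε` for infinitely many `q` -/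
def Good (ε α β γ : ℝ) : Prop :=
  ∃ᶠ q : ℕ in atTop, (q : ℝ) * |q * α - round (q * α)| * |(q * β - γ) - round (q * β - γ)| < ε

open Classical in
theorem result (d : ℕ) (ε δ : ℝ) (hε : 0 < ε) (hδ : 0 < δ) :
    ∃ N₀ b : ℕ, 0 < b ∧ ∀ (α : ℝ) (P : ℝ[X]), P.natDegree ≤ d →
      (∃ j, 1 ≤ j ∧ ∀ V W : ℤ, (b : ℝ) * P.coeff j ≠ V * α + W) → ∀ N ≥ N₀,
      (((Finset.range N).filter
        (fun l : ℕ => ¬ ∀ γ : ℝ, Good ε α (P.eval (l : ℝ)) γ)).card : ℝ) ≤ δ * N := by
  obtain ⟨N₂, b₂, hb₂, h₂⟩ := Pool.Agent.H639R3.LP.main d ε δ hε hδ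
  refine ⟨N₂, b₂, hb₂, ?_⟩
  intro α P hP hj N hN
  refine h₂ α P hP hj N hN _ (Finset.filter_subset _ _) ?_
  intro l hl hcon
  exact (Finset.mem_filter.1 hl).2 hcon

end Pool.Agent.Results.MP_0ea415_nt.ProgressionsModLattice
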