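import Mathlib
import Pool.Agent.H238R3.UL.Short

set_option autoImplicit false

/-! # MP_0ea415_nt: short arithmetic progressions in the exceptional set of Littlewood's conjecture

For `ε > 0` and a real number `α` let `V_ε(α)` be the set of all real `β` for which only finitely
many `q` satisfy `q ‖qα‖ ‖qβ‖ < ε`; a pair `(α, β)` violates the Littlewood conjecture if and only
if `β` lies in `V_ε(α)` for some `ε > 0`. Let `0 < ε ≤ 1/2` and let `α` satisfy `q ‖qα‖ ≥ δ` for all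
large `q`. We show that `V_ε(α)` contains no arithmetic progression with at least
`(1/δ + 2) / (4ε²) + 1 / (2ε)` terms, unless a multiple `bθ`, `1 ≤ b ≤ 1 / (4 ε²)`, of its common
difference `θ` is in `ℤ + ℤα`. For `δ = 2ε` no condition on `α` is needed. An arbitrary
inhomogeneous shift `γ` of `qβ` is allowed.

So, for all `θ` not in `ℚ + ℚα`, the smallest of the numbers `liminf q ‖qα‖ ‖q(β + lθ)‖`,
`0 ≤ l < N`, is `O(N^(-1/2))` for every badly approximable `α` (uniformly in `β` and `θ`), and it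
is `O(N^(-1/3))` uniformly in all real `α`. -/

open Filter

namespace Pool.Agent.Results.MP_0ea415_nt.ShortProgressions

/-- `q ‖qα‖ ‖qβ - γ‖ < ε` for infinitely many `q` -/
def Good (ε α β γ : ℝ) : Prop :=
  ∃ᶠ q : ℕ in atTop, (q : ℝ) * |q * α - round (q * α)| * |(q * β - γ) - round (q * β - γ)| < ε

theorem result (ε δ : ℝ) (hε : 0 < ε) (hε2 : ε ≤ 1 / 2) (hδ : 0 < δ) (N : ℕ)
    (hN : (1 / δ + 2) / (4 * ε ^ 2) + 1 / (2 * ε) ≤ N) (α β θ γ : ℝ)
    (hα : δ ≤ 2 * ε ∨ ∀ᶠ q : ℕ in atTop, δ ≤ (q : ℝ) * |q * α - round (q * α)|)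
    (hθ : ∀ b : ℕ, 1 ≤ b → 4 * ε ^ 2 * b ≤ 1 → ∀ u v : ℤ, (b : ℝ) * θ ≠ u + v * α) :
    ∃ l : ℕ, l < N ∧ Good ε α (β + l * θ) γ :=
  Pool.Agent.H238R3.UL.short α β θ γ ε δ hε hε2 hδ N hN hα hθ

end Pool.Agent.Results.MP_0ea415_nt.ShortProgressions
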